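import Pool.Agent.LibSH29.X3

/-! Combinatorial invariance of the `h`-polynomials and of the local rings of Schubert varieties for
lower Bruhat intervals. -/

open MvPolynomial SH

namespace Pool.Agent.Results.MP_8c46a4_co.LowerIntervals

theorem result {n m : ℕ} (w : Equiv.Perm (Fin n)) (w' : Equiv.Perm (Fin m))
    (φ : Set.Iic w ≃o Set.Iic w') :
    (∃ F G, ∀ x : Set.Iic w, PolyIso F G (Cell 1 x.1) (Cell 1 (φ x).1)) ∧
      ∀ v : Set.Iic w, SameJets (Cell v.1 w) (Cell (φ v).1 w') ∧ H v.1 w = H (φ v).1 w' := by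
  obtain ⟨⟨F, G, h1, h2⟩, h3⟩ := SH.main w w' φ
  refine ⟨⟨F, G, fun x => ⟨h1 x, fun q hq => ?_⟩⟩, h3⟩
  have h := h2 (φ x) q hq
  rwa [OrderIso.symm_apply_apply] at h

end Pool.Agent.Results.MP_8c46a4_co.LowerIntervals
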