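import Pool.Agent.LibHQ4.J2

/-! The first three coefficients of the `h`-polynomials of Schubert varieties are combinatorial
invariants of Bruhat intervals. -/

open SH

namespace Pool.Agent.Results.MP_8c46a4_co.ThreeCoefficients

theorem result {n m : ℕ} {v w : Equiv.Perm (Fin n)} {v' w' : Equiv.Perm (Fin m)} (hvw : v ≤ w)
    (hvw' : v' ≤ w') (φ : Set.Icc v w ≃o Set.Icc v' w') :
    ∀ k ≤ 2, PowerSeries.coeff k (H v w) = PowerSeries.coeff k (H v' w') :=
  HQ.main hvw hvw' φ

end Pool.Agent.Results.MP_8c46a4_co.ThreeCoefficients
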